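import Pool.Agent.S06601
import Pool.Agent.Lib.MP_ed8a78_an.LitCells
import Pool.Agent.Lib.MP_ed8a78_an.LitMeas

/-!
# Densities between harmonic energy measures on the Sierpinski gasket

The definitions (gasket, resistance form, harmonic functions, energy measures) are in
`Pool.Agent.Lib.MP_ed8a78_an.LitDefs`; `nrm K μ` is `μ` divided by `μ K`.
-/

set_option autoImplicit false

namespace Pool.Agent.Results.MP_ed8a78_an.DensityLp

open MeasureTheory Filter Topology Pool.Agent.Lib.MP_ed8a78_an.Lit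

/-- the cell sums are bounded -/
theorem sums {q : Fin 3 → Plane} {K : Set Plane} (hK : IsGasket q K) {h₁ h₂ : Plane → ℝ}
    (hh₁ : IsHarmonic q K h₁) (hh₂ : IsHarmonic q K h₂)
    (hn₁ : ∃ x ∈ K, ∃ y ∈ K, h₁ x ≠ h₁ y) (hn₂ : ∃ x ∈ K, ∃ y ∈ K, h₂ x ≠ h₂ y)
    {μ₁ μ₂ : Measure Plane} (hμ₁ : IsEnergyMeasure q K h₁ μ₁) (hμ₂ : IsEnergyMeasure q K h₂ μ₂)
    {p : ℝ} (hp : 1 < p) (hp' : p < Real.log 15 / Real.log 9) :
    ∃ C : ℝ, ∀ n : ℕ, ∑ w : Fin n → Fin 3,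
      (nrm K μ₁).real (Fw q (List.ofFn w) '' K) ^ p *
        (nrm K μ₂).real (Fw q (List.ofFn w) '' K) ^ (1 - p) ≤ C := by
  obtain ⟨C, hC⟩ := Pool.Agent.S06601.result AA rfl E0 (fun v => rfl)
    (fun x n w => (5 / 3 : ℝ) ^ n *
      E0 ((List.ofFn w).foldl (fun v i => (AA i).mulVec v) x) / E0 x) (fun x n w => rfl)
    (bv q h₁) (bv q h₂) (hh₁.E0_pos hK hn₁).ne' (hh₂.E0_pos hK hn₂).ne' p hp hp'
  refine ⟨C, fun n => ?_⟩
  refine le_trans (le_of_eq (Finset.sum_congr rfl fun w _ => ?_)) (hC n)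
  rw [nrm_real hK hh₁ hμ₁, nrm_real hK hh₂ hμ₂, List.length_ofFn]
  rfl

/-- For nonconstant harmonic functions `h₁`, `h₂` on the Sierpinski gasket `K` with energy
measures `μ₁`, `μ₂` and `1 < p < log 15 / log 9`: the normalised energy measure of `h₁` is
absolutely continuous with respect to that of `h₂`, the Radon-Nikodym derivative is in `L^p`, and
the cell sums of the problem are bounded. -/
theorem result (q : Fin 3 → Plane) (K : Set Plane) (hK : IsGasket q K) (h₁ h₂ : Plane → ℝ)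
    (hh₁ : IsHarmonic q K h₁) (hh₂ : IsHarmonic q K h₂)
    (hn₁ : ∃ x ∈ K, ∃ y ∈ K, h₁ x ≠ h₁ y) (hn₂ : ∃ x ∈ K, ∃ y ∈ K, h₂ x ≠ h₂ y)
    (μ₁ μ₂ : Measure Plane) (hμ₁ : IsEnergyMeasure q K h₁ μ₁) (hμ₂ : IsEnergyMeasure q K h₂ μ₂)
    (p : ℝ) (hp : 1 < p) (hp' : p < Real.log 15 / Real.log 9) :
    nrm K μ₁ ≪ nrm K μ₂ ∧
      MemLp (fun x => ((nrm K μ₁).rnDeriv (nrm K μ₂) x).toReal) (ENNReal.ofReal p) (nrm K μ₂) ∧
      ∃ C : ℝ, ∀ n : ℕ, ∑ w : Fin n → Fin 3,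
        (nrm K μ₂).real (Fw q (List.ofFn w) '' K) ^ (1 - p) *
          (nrm K μ₁).real (Fw q (List.ofFn w) '' K) ^ p ≤ C := by
  obtain ⟨r, hpr, hr⟩ := exists_between hp'
  have hr1 : 1 < r := hp.trans hpr
  obtain ⟨M, hM⟩ := sums hK hh₁ hh₂ hn₁ hn₂ hμ₁ hμ₂ hr1 hr
  have := nrm_finite hK hh₁ hn₁ hμ₁
  have := nrm_finite hK hh₂ hn₂ hμ₂
  have hrq : r.HolderConjugate (r.conjExponent) := Real.HolderConjugate.conjExponent hr1
  have hM0 : 0 ≤ M := by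
    refine le_trans (Finset.sum_nonneg fun w _ => ?_) (hM 0)
    exact mul_nonneg (Real.rpow_nonneg measureReal_nonneg _)
      (Real.rpow_nonneg measureReal_nonneg _)
  have hδ : Tendsto (fun n : ℕ => (1 / 2 : ℝ) ^ n * Metric.diam K) atTop (𝓝 0) := by
    have h := (tendsto_pow_atTop_nhds_zero_of_lt_one (r := (1 / 2 : ℝ)) (by norm_num)
      (by norm_num)).mul_const (Metric.diam K)
    rwa [zero_mul] at h
  have hcl : ∀ B : Set Plane, IsClosed B → (nrm K μ₁).real B ≤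
      M ^ (1 / r) * (nrm K μ₂).real B ^ (1 / r.conjExponent) := fun B hB =>
    closed_bound (nrm_compl hμ₁) (c := fun n w => Fw q (List.ofFn w) '' K)
      (fun n => hK.cover n) hδ (fun n w => hK.cell_diam n w)
      (fun n => by rw [nrm_sum hK hh₂ hn₂ hμ₂, nrm_real_K hK hh₂ hn₂ hμ₂])
      (fun n w => nrm_pos hK hh₂ hn₂ hμ₂ _) hrq hM hB
  have hq0 : 0 < 1 / r.conjExponent := by
    have := hrq.symm.pos
    positivity
  have hC0 : 0 ≤ M ^ (1 / r) := Real.rpow_nonneg hM0 _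
  have hms : ∀ B : Set Plane, MeasurableSet B → (nrm K μ₁).real B ≤
      M ^ (1 / r) * (nrm K μ₂).real B ^ (1 / r.conjExponent) := fun B hB =>
    meas_bound hC0 hq0.le hcl hB
  refine ⟨ac_of_bound hq0 hms, memLp_of_bound hC0 hrq (by linarith) hpr hms, ?_⟩
  obtain ⟨C, hC⟩ := sums hK hh₁ hh₂ hn₁ hn₂ hμ₁ hμ₂ hp hp'
  refine ⟨C, fun n => le_trans (le_of_eq (Finset.sum_congr rfl fun w _ => mul_comm _ _)) (hC n)⟩

end Pool.Agent.Results.MP_ed8a78_an.DensityLp
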